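import Pool.Agent.Y649.DG.Gen
import Pool.Agent.Y638.RF.MinPlus

set_option autoImplicit false

/-! # Formulas with determinant gates: shortest paths of length two -/

namespace Pool.Agent.Q330.DG.MP

open Finset Pool.Agent.TH697.Form Pool.Agent.TH697.Row
open Pool.Agent.Y649.DG
open Pool.Agent.TH697.Form.MinPlus (Item InRange shortcut)
open Pool.Agent.TH457.Ary.MinPlus
open Pool.Agent.Y638.RF.MinPlus (asks approx_mono)

/-- the arithmetic -/
theorem arith {n b c w s : ℝ} (hb : 4 ≤ b) (hcs : 0 ≤ c * w ^ 3 * s ^ 2)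
    (h : n ^ 2 * (n ^ 2 * b) ≤ 360000 * w ^ 2 * (44 * c * w * b) * s ^ 2) :
    n ^ 4 ≤ 16000000 * c * w ^ 3 * s ^ 2 := by
  have h4 : b * n ^ 4 ≤ b * (15840000 * (c * w ^ 3 * s ^ 2)) := by
    have e1 : n ^ 2 * (n ^ 2 * b) = b * n ^ 4 := by ring
    have e2 : 360000 * w ^ 2 * (44 * c * w * b) * s ^ 2 =
        b * (15840000 * (c * w ^ 3 * s ^ 2)) := by ring
    rw [e1, e2] at h
    exact h
  have h5 := le_of_mul_le_mul_left h4 (by linarith)
  have e3 : 16000000 * c * w ^ 3 * s ^ 2 = 16000000 * (c * w ^ 3 * s ^ 2) := by ring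
  rw [e3]
  linarith

/-- the bound for the logarithms -/
theorem arithL {b c w l : ℝ} (hb : 4 ≤ b) (hc : 1 ≤ c) (hw : 1 ≤ w) (hl : l ≤ 5 / 4 * b) :
    1 + 5 * (7 * l) + (w - 1) * (c * l) ≤ 44 * c * w * b := by
  have h4 : (w - 1) * (c * l) ≤ (w - 1) * (c * (5 / 4 * b)) :=
    mul_le_mul_of_nonneg_left (mul_le_mul_of_nonneg_left hl (by linarith)) (by linarith)
  have h5 : 1 + 5 * (7 * l) ≤ 44 * b := by linarith
  have h6 : b ≤ c * b := by nlinarith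
  have h7 : 0 ≤ (w - 1) * (c * b) := by
    apply mul_nonneg (by linarith)
    positivity
  nlinarith

theorem minplus (h : S_BOUND) (n c w : ℕ) (hn : 32 ≤ n) (hc : 1 ≤ c) (hw : 1 ≤ w)
    (Ω : Type) [Fintype Ω] (μ : Ω → ℝ) (hμ : IsProb μ)
    (s : ℕ) (F : Ω → Fml (Option (Fin n)) (Item n) w (n ^ c))
    (hs : ∀ ω, (F ω).size ≤ s)
    (hF : ApproximatesOn μ (fun ω => (F ω).accepts) (InRange n (n + 1)) (shortcut n)) :
    (n : ℝ) ^ 4 ≤ 16000000 * c * w ^ 3 * s ^ 2 := by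
  classical
  have hn' : (32 : ℝ) ≤ n := by exact_mod_cast hn
  have hw' : (1 : ℝ) ≤ w := by exact_mod_cast hw
  have hc' : (1 : ℝ) ≤ c := by exact_mod_cast hc
  have h3 : (1 : ℝ) ≤ w ^ 3 := one_le_pow₀ hw'
  have h4 : (1 : ℝ) ≤ c * w ^ 3 := by nlinarith
  have h6 : 0 ≤ (s : ℝ) ^ 2 := by positivity
  by_cases hsm : n ^ 3 ≤ s
  · have h1 : (n : ℝ) ^ 3 ≤ s := by exact_mod_cast hsm
    have h2 : (n : ℝ) ^ 4 ≤ (s : ℝ) ^ 2 := by
      calc (n : ℝ) ^ 4 ≤ ((n : ℝ) ^ 3) ^ 2 := by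
            rw [← pow_mul]
            exact pow_le_pow_right₀ (by linarith) (by norm_num)
        _ ≤ (s : ℝ) ^ 2 := pow_le_pow_left₀ (by positivity) h1 2
    have e : 16000000 * (c : ℝ) * w ^ 3 * s ^ 2 = 16000000 * (c * w ^ 3) * s ^ 2 := by ring
    rw [e]
    nlinarith
  obtain ⟨b, hb⟩ : ∃ b, b = Nat.log 2 n := ⟨_, rfl⟩
  have hb4 : 4 ≤ b := by
    have := Nat.log_mono_right (b := 2) (show 16 ≤ n by omega)
    rw [hb]
    rwa [show Nat.log 2 16 = 4 by decide +kernel] at this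
  have hpow : 2 ^ b ≤ n := by
    rw [hb]
    exact Nat.pow_log_le_self 2 (by omega)
  have hpow2 : n < 2 ^ (b + 1) := by
    have := Nat.lt_pow_succ_log_self (b := 2) (by norm_num) n
    rw [hb]
    exact this
  have hb' : (4 : ℝ) ≤ b := by exact_mod_cast hb4
  have hl : Real.logb 2 (n : ℝ) ≤ 5 / 4 * b := by
    have h9 := logb_q (c := 1) (by omega) hb4 hpow2
    simpa using h9
  have hM : 4 * n ^ 3 * (5 * s + 1) + 2 + s ≤ n ^ 7 := by
    have h1 : s < n ^ 3 := by omega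
    have h2 : 4 * n ^ 3 * (5 * s + 1) ≤ 4 * n ^ 3 * (5 * n ^ 3) := Nat.mul_le_mul_left _ (by omega)
    have h3 : 4 * n ^ 3 * (5 * n ^ 3) = 20 * n ^ 6 := by ring
    have h4 : n ^ 3 ≤ n ^ 6 := Nat.pow_le_pow_right (by omega) (by norm_num)
    have h5 : 32 * n ^ 6 ≤ n ^ 7 := by
      calc 32 * n ^ 6 ≤ n * n ^ 6 := Nat.mul_le_mul_right _ hn
        _ = n ^ 7 := by ring
    have h6 : 1 ≤ n ^ 6 := Nat.one_le_pow _ _ (by omega)
    omega
  have hLL : 1 + 5 * Real.logb 2 ((n ^ 7 : ℕ) : ℝ) +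
      ((w : ℝ) - 1) * Real.logb 2 ((n ^ c : ℕ) : ℝ) ≤ 44 * c * w * b := by
    rw [Nat.cast_pow n 7, Nat.cast_pow n c, Real.logb_pow, Real.logb_pow]
    exact arithL hb' hc' hw' hl
  have hT : ((n : ℝ) ^ 2 * b) ≤ (Fintype.card (Fin n × Fin n × Fin b) : ℝ) := by
    rw [card_T]
  have h7 := bound_sq h (D := Item n) μ hμ F (InRange n (2 ^ b + 1)) (shortcut n)
    (approx_mono μ _ _ _ _ (fun x hx => inRange_mono (by omega) x hx) hF) s hs
    (Nat.one_le_pow _ _ (by omega)) hw (n ^ 3) (n ^ 7) hM 0 (by norm_num)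
    ((univ : Finset (Fin n)).map Function.Embedding.some)
    (T := Fin n × Fin n × Fin b) (by
      intro a ha
      rw [mem_map] at ha
      obtain ⟨i, -, rfl⟩ := ha
      exact asks hpow i) ((n : ℝ) ^ 2 * b) (by nlinarith) hT _ hLL
  rw [card_map, card_univ, Fintype.card_fin] at h7
  exact arith hb' (by positivity) h7

end Pool.Agent.Q330.DG.MP
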