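import Pool.Agent.Y649.DG.Gen
import Pool.Agent.Y638.RF.Xor

set_option autoImplicit false

/-! # Formulas with determinant gates: products `u_iᵀ M v_i`, Boolean and over `ZMod 2` -/

namespace Pool.Agent.Q330.DG.OM

open Finset Pool.Agent.TH697.Form Pool.Agent.TH697.Row
open Pool.Agent.Y649.DG
open Pool.Agent.Y638.RF (Asks)

/-- the arithmetic -/
theorem arith {n c w l s : ℝ} (hcs : 0 ≤ (c + l) * w ^ 3 * s ^ 2)
    (h : n ^ 2 * (n ^ 2) ≤ 360000 * w ^ 2 * (31 * (c + l) * w) * s ^ 2) :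
    n ^ 4 ≤ 12000000 * (c + l) * w ^ 3 * s ^ 2 := by
  have e1 : n ^ 2 * (n ^ 2) = n ^ 4 := by ring
  have e2 : 360000 * w ^ 2 * (31 * (c + l) * w) * s ^ 2 =
      11160000 * ((c + l) * w ^ 3 * s ^ 2) := by ring
  have e3 : 12000000 * (c + l) * w ^ 3 * s ^ 2 = 12000000 * ((c + l) * w ^ 3 * s ^ 2) := by ring
  rw [e1, e2] at h
  rw [e3]
  linarith

/-- the bound for the logarithms -/
theorem arithL {c w l : ℝ} (hc : 1 ≤ c) (hw : 1 ≤ w) (hl : 1 ≤ l) :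
    1 + 5 * (6 * l) + (w - 1) * c ≤ 31 * (c + l) * w := by
  have h1 : 1 + 5 * (6 * l) ≤ 31 * l := by linarith
  have h3 : 0 ≤ (w - 1) * c := mul_nonneg (by linarith) (by linarith)
  have h4 : 0 ≤ (w - 1) * l := mul_nonneg (by linarith) (by linarith)
  nlinarith

/-- the bound for products of vectors with a matrix -/
theorem bound_of (h : S_BOUND) {n c w : ℕ} (hn : 32 ≤ n) (hc : 1 ≤ c) (hw : 1 ≤ w)
    {D : Option (Fin n) → Type} {f : (∀ i, D i) → Bool}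
    (hI : ∀ i : Fin n, Asks (Fin n × Fin n) (n ^ 2) 0 (fun _ => True) f (some i))
    {Ω : Type} [Fintype Ω] (μ : Ω → ℝ) (hμ : IsProb μ)
    (s : ℕ) (F : Ω → Fml (Option (Fin n)) D w (2 ^ c))
    (hs : ∀ ω, (F ω).size ≤ s)
    (hF : ApproximatesOn μ (fun ω => (F ω).accepts) (fun _ => True) f) :
    (n : ℝ) ^ 4 ≤ 12000000 * (c + Real.logb 2 n) * w ^ 3 * s ^ 2 := by
  classical
  have hn' : (32 : ℝ) ≤ n := by exact_mod_cast hn
  have hw' : (1 : ℝ) ≤ w := by exact_mod_cast hw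
  have hc' : (1 : ℝ) ≤ c := by exact_mod_cast hc
  obtain ⟨hl, hl1⟩ := Pool.Agent.TH457.Ary.OuMv.logb_n hn
  have hl1' : (1 : ℝ) ≤ Real.logb 2 (n : ℝ) := by linarith
  have h3 : (1 : ℝ) ≤ w ^ 3 := one_le_pow₀ hw'
  have h4 : (1 : ℝ) ≤ (c + Real.logb 2 (n : ℝ)) * w ^ 3 := by nlinarith
  have h6 : 0 ≤ (s : ℝ) ^ 2 := by positivity
  by_cases hsm : n ^ 3 ≤ s
  · have h1 : (n : ℝ) ^ 3 ≤ s := by exact_mod_cast hsm
    have h2 : (n : ℝ) ^ 4 ≤ (s : ℝ) ^ 2 := by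
      calc (n : ℝ) ^ 4 ≤ ((n : ℝ) ^ 3) ^ 2 := by
            rw [← pow_mul]
            exact pow_le_pow_right₀ (by linarith) (by norm_num)
        _ ≤ (s : ℝ) ^ 2 := pow_le_pow_left₀ (by positivity) h1 2
    have e : 12000000 * (c + Real.logb 2 (n : ℝ)) * w ^ 3 * s ^ 2 =
        12000000 * ((c + Real.logb 2 (n : ℝ)) * w ^ 3) * s ^ 2 := by ring
    rw [e]
    nlinarith
  have hM : 4 * n ^ 2 * (5 * s + 1) + 2 + s ≤ n ^ 6 := by
    have h1 : s < n ^ 3 := by omega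
    have h2 : 4 * n ^ 2 * (5 * s + 1) ≤ 4 * n ^ 2 * (5 * n ^ 3) := Nat.mul_le_mul_left _ (by omega)
    have h3 : 4 * n ^ 2 * (5 * n ^ 3) = 20 * n ^ 5 := by ring
    have h4 : n ^ 3 ≤ n ^ 5 := Nat.pow_le_pow_right (by omega) (by norm_num)
    have h5 : 32 * n ^ 5 ≤ n ^ 6 := by
      calc 32 * n ^ 5 ≤ n * n ^ 5 := Nat.mul_le_mul_right _ hn
        _ = n ^ 6 := by ring
    have h6 : 1 ≤ n ^ 5 := Nat.one_le_pow _ _ (by omega)
    omega
  have hLL : 1 + 5 * Real.logb 2 ((n ^ 6 : ℕ) : ℝ) +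
      ((w : ℝ) - 1) * Real.logb 2 ((2 ^ c : ℕ) : ℝ) ≤ 31 * (c + Real.logb 2 (n : ℝ)) * w := by
    have e2 : Real.logb 2 ((2 : ℕ) : ℝ) = 1 := by
      rw [Nat.cast_ofNat]
      exact Real.logb_self_eq_one (by norm_num)
    rw [Nat.cast_pow n 6, Nat.cast_pow 2 c, Real.logb_pow, Real.logb_pow, e2, mul_one]
    exact arithL hc' hw' hl1'
  have hT : ((n : ℝ) ^ 2) ≤ (Fintype.card (Fin n × Fin n) : ℝ) := by
    rw [Fintype.card_prod, Fintype.card_fin]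
    push_cast
    nlinarith
  have h7 := bound_sq h (D := D) μ hμ F (fun _ => True) f hF s hs
    Nat.one_le_two_pow hw (n ^ 2) (n ^ 6) hM 0 (by norm_num)
    ((univ : Finset (Fin n)).map Function.Embedding.some)
    (T := Fin n × Fin n) (by
      intro a ha
      rw [mem_map] at ha
      obtain ⟨i, -, rfl⟩ := ha
      exact hI i) ((n : ℝ) ^ 2) (by nlinarith) hT _ hLL
  rw [card_map, card_univ, Fintype.card_fin] at h7
  exact arith (by positivity) h7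

end Pool.Agent.Q330.DG.OM
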